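import Mathlib

open MeasureTheory Set Filter Topology
open scoped ContDiff RealInnerProductSpace

namespace Pool.Agent.W971.Tight

abbrev E3 := EuclideanSpace ℝ (Fin 3)

noncomputable def cr (x y : E3) : E3 :=
  WithLp.toLp 2 ![x 1 * y 2 - x 2 * y 1, x 2 * y 0 - x 0 * y 2, x 0 * y 1 - x 1 * y 0]

lemma inner3 (x y : E3) : ⟪x, y⟫ = x 0 * y 0 + x 1 * y 1 + x 2 * y 2 := by
  rw [PiLp.inner_apply, Fin.sum_univ_three]
  simp only [RCLike.inner_apply, conj_trivial]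
  ring

@[simp] lemma cr0 (x y : E3) : cr x y 0 = x 1 * y 2 - x 2 * y 1 := rfl
@[simp] lemma cr1 (x y : E3) : cr x y 1 = x 2 * y 0 - x 0 * y 2 := rfl
@[simp] lemma cr2 (x y : E3) : cr x y 2 = x 0 * y 1 - x 1 * y 0 := rfl

lemma inner_cr_left (x y : E3) : ⟪cr x y, x⟫ = 0 := by
  rw [inner3]; simp only [cr0, cr1, cr2]; ring

lemma inner_cr_right (x y : E3) : ⟪cr x y, y⟫ = 0 := by
  rw [inner3]; simp only [cr0, cr1, cr2]; ring

lemma inner_cr_self (x y : E3) : ⟪cr x y, cr x y⟫ = ⟪x, x⟫ * ⟪y, y⟫ - ⟪x, y⟫ ^ 2 := by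
  rw [inner3, inner3 x x, inner3 y y, inner3 x y]; simp only [cr0, cr1, cr2]; ring

section D
variable {V : Type*} [NormedAddCommGroup V] [NormedSpace ℝ V]

/-- the two partial derivatives -/
noncomputable def Du (G : ℝ × ℝ → V) (p : ℝ × ℝ) : V := fderiv ℝ G p (1, 0)
noncomputable def Dv (G : ℝ × ℝ → V) (p : ℝ × ℝ) : V := fderiv ℝ G p (0, 1)

lemma contDiff_Du {G : ℝ × ℝ → V} (hG : ContDiff ℝ ∞ G) : ContDiff ℝ ∞ (Du G) := by
  unfold Du
  exact (hG.fderiv_right (m := ∞) (by simp)).clm_apply contDiff_const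

lemma contDiff_Dv {G : ℝ × ℝ → V} (hG : ContDiff ℝ ∞ G) : ContDiff ℝ ∞ (Dv G) := by
  unfold Dv
  exact (hG.fderiv_right (m := ∞) (by simp)).clm_apply contDiff_const

lemma fderiv_fderiv_apply {G : ℝ × ℝ → V} (hG : ContDiff ℝ ∞ G) (p v w : ℝ × ℝ) :
    fderiv ℝ (fun q => fderiv ℝ G q v) p w = fderiv ℝ (fderiv ℝ G) p w v := by
  have h1 : DifferentiableAt ℝ (fderiv ℝ G) p :=
    ((hG.fderiv_right (m := ∞) (by simp)).differentiable (by simp)) p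
  rw [fderiv_clm_apply h1 (differentiableAt_const _)]
  simp

lemma Dv_Du {G : ℝ × ℝ → V} (hG : ContDiff ℝ ∞ G) (p : ℝ × ℝ) :
    Dv (Du G) p = Du (Dv G) p := by
  unfold Du Dv
  rw [fderiv_fderiv_apply hG, fderiv_fderiv_apply hG]
  exact (((contDiff_infty.1 hG 2).contDiffAt).isSymmSndFDerivAt (n := 2) (by simp)) _ _

lemma fderiv_pair {G : ℝ × ℝ → V} (p : ℝ × ℝ) (s t : ℝ) :
    fderiv ℝ G p (s, t) = s • Du G p + t • Dv G p := by
  unfold Du Dv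
  rw [← map_smul, ← map_smul, ← map_add]
  congr 1
  simp

end D

lemma Du_inner {f g : ℝ × ℝ → E3} (hf : ContDiff ℝ ∞ f) (hg : ContDiff ℝ ∞ g) (p : ℝ × ℝ) :
    Du (fun q => ⟪f q, g q⟫) p = ⟪f p, Du g p⟫ + ⟪Du f p, g p⟫ := by
  unfold Du
  exact fderiv_inner_apply ℝ (hf.differentiable (by simp) p) (hg.differentiable (by simp) p) _

lemma Dv_inner {f g : ℝ × ℝ → E3} (hf : ContDiff ℝ ∞ f) (hg : ContDiff ℝ ∞ g) (p : ℝ × ℝ) :
    Dv (fun q => ⟪f q, g q⟫) p = ⟪f p, Dv g p⟫ + ⟪Dv f p, g p⟫ := by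
  unfold Dv
  exact fderiv_inner_apply ℝ (hf.differentiable (by simp) p) (hg.differentiable (by simp) p) _

lemma Du_fst {h : ℝ → ℝ} (hh : ContDiff ℝ ∞ h) (p : ℝ × ℝ) :
    Du (fun q => h q.1) p = deriv h p.1 := by
  unfold Du
  have h1 : HasFDerivAt (fun q : ℝ × ℝ => h q.1)
      ((deriv h p.1) • (ContinuousLinearMap.fst ℝ ℝ ℝ)) p :=
    ((hh.differentiable (by simp) p.1).hasDerivAt).comp_hasFDerivAt p hasFDerivAt_fst
  rw [h1.fderiv]; simp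

lemma Dv_fst {h : ℝ → ℝ} (hh : ContDiff ℝ ∞ h) (p : ℝ × ℝ) :
    Dv (fun q => h q.1) p = 0 := by
  unfold Dv
  have h1 : HasFDerivAt (fun q : ℝ × ℝ => h q.1)
      ((deriv h p.1) • (ContinuousLinearMap.fst ℝ ℝ ℝ)) p :=
    ((hh.differentiable (by simp) p.1).hasDerivAt).comp_hasFDerivAt p hasFDerivAt_fst
  rw [h1.fderiv]; simp

lemma Du_const (c : ℝ) (p : ℝ × ℝ) : Du (fun _ => c) p = 0 := by simp [Du]
lemma Dv_const (c : ℝ) (p : ℝ × ℝ) : Dv (fun _ => c) p = 0 := by simp [Dv]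

lemma parseval {a b n : E3} {r : ℝ} (hr : 0 < r) (haa : ⟪a, a⟫ = (1:ℝ)) (hab : ⟪a, b⟫ = (0:ℝ))
    (hbb : ⟪b, b⟫ = r ^ 2) (hna : ⟪n, a⟫ = (0:ℝ)) (hnb : ⟪n, b⟫ = (0:ℝ)) (hnn : ⟪n, n⟫ = (1:ℝ))
    (x y : E3) :
    ⟪x, y⟫ = ⟪x, a⟫ * ⟪y, a⟫ + ⟪x, b⟫ * ⟪y, b⟫ / r ^ 2 + ⟪x, n⟫ * ⟪y, n⟫ := by
  have hr0 : r ≠ 0 := hr.ne'
  have hba : ⟪b, a⟫ = (0:ℝ) := by rw [real_inner_comm]; exact hab
  have han : ⟪a, n⟫ = (0:ℝ) := by rw [real_inner_comm]; exact hna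
  have hbn : ⟪b, n⟫ = (0:ℝ) := by rw [real_inner_comm]; exact hnb
  let v : Fin 3 → E3 := ![a, r⁻¹ • b, n]
  have hv : Orthonormal ℝ v := by
    rw [orthonormal_iff_ite]
    intro i j
    fin_cases i <;> fin_cases j <;>
      simp only [v, Fin.zero_eta, Fin.mk_one, Fin.reduceFinMk, Matrix.cons_val_zero,
        Matrix.cons_val_one, Matrix.cons_val, inner_smul_left, inner_smul_right, haa, hab, hbb,
        hna, hnb, hnn, hba, han, hbn, conj_trivial, mul_zero, if_true, Fin.isValue] <;>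
      first
        | simp
        | field_simp
  let B : OrthonormalBasis (Fin 3) ℝ E3 := OrthonormalBasis.mk hv (by
    rw [hv.linearIndependent.span_eq_top_of_card_eq_finrank' (by simp)])
  have := B.sum_inner_mul_inner x y
  rw [Fin.sum_univ_three] at this
  have hB : ∀ i, B i = v i := fun i => by simp [B]
  rw [hB, hB, hB] at this
  rw [← this]
  simp only [v, Matrix.cons_val_zero, Matrix.cons_val_one, Matrix.cons_val, inner_smul_left,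
    inner_smul_right, conj_trivial]
  rw [real_inner_comm a y, real_inner_comm b y, real_inner_comm n y]
  field_simp

end Pool.Agent.W971.Tight
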