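import Pool.Agent.W971.TightA

open MeasureTheory Set Filter Topology
open scoped ContDiff RealInnerProductSpace

set_option linter.unusedSectionVars false

namespace Pool.Agent.W971.Tight

structure Imm (φ : ℝ → ℝ) (F : ℝ × ℝ → E3) : Prop where
  smooth : ContDiff ℝ ∞ F
  per : ∀ (p : ℝ × ℝ) (m n : ℤ), F (p.1 + m, p.2 + n) = F p
  h11 : ∀ p, ⟪Du F p, Du F p⟫ = (1 : ℝ)
  h12 : ∀ p, ⟪Du F p, Dv F p⟫ = (0 : ℝ)
  h22 : ∀ p, ⟪Dv F p, Dv F p⟫ = φ p.1 ^ 2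

noncomputable def Nor (φ : ℝ → ℝ) (F : ℝ × ℝ → E3) (p : ℝ × ℝ) : E3 :=
  (φ p.1)⁻¹ • cr (Du F p) (Dv F p)

variable {φ : ℝ → ℝ} {F : ℝ × ℝ → E3}

section
variable (hI : Imm φ F) (hφ : ContDiff ℝ ∞ φ) (hpos : ∀ u, 0 < φ u)
include hI hpos

lemma Nor_a (p : ℝ × ℝ) : ⟪Nor φ F p, Du F p⟫ = (0 : ℝ) := by
  rw [Nor, inner_smul_left, inner_cr_left, mul_zero]

lemma Nor_b (p : ℝ × ℝ) : ⟪Nor φ F p, Dv F p⟫ = (0 : ℝ) := by
  rw [Nor, inner_smul_left, inner_cr_right, mul_zero]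

lemma Nor_n (p : ℝ × ℝ) : ⟪Nor φ F p, Nor φ F p⟫ = (1 : ℝ) := by
  have := (hpos p.1).ne'
  rw [Nor, inner_smul_left, inner_smul_right, inner_cr_self, hI.h11, hI.h12, hI.h22]
  simp only [conj_trivial]
  field_simp
  ring

lemma pars (p : ℝ × ℝ) (x y : E3) :
    ⟪x, y⟫ = ⟪x, Du F p⟫ * ⟪y, Du F p⟫ + ⟪x, Dv F p⟫ * ⟪y, Dv F p⟫ / φ p.1 ^ 2
      + ⟪x, Nor φ F p⟫ * ⟪y, Nor φ F p⟫ :=
  parseval (hpos p.1) (hI.h11 p) (hI.h12 p) (hI.h22 p) (Nor_a hI hpos p) (Nor_b hI hpos p)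
    (Nor_n hI hpos p) x y

include hφ

lemma smooth_Nor : ContDiff ℝ ∞ (Nor φ F) := by
  have ha := contDiff_euclidean.1 (contDiff_Du hI.smooth)
  have hb := contDiff_euclidean.1 (contDiff_Dv hI.smooth)
  have h1 : ContDiff ℝ ∞ (fun p : ℝ × ℝ => (φ p.1)⁻¹) :=
    (hφ.comp contDiff_fst).inv (fun p => (hpos p.1).ne')
  unfold Nor
  apply h1.smul
  rw [contDiff_euclidean]
  intro i
  fin_cases i
  · exact ((ha 1).mul (hb 2)).sub ((ha 2).mul (hb 1))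
  · exact ((ha 2).mul (hb 0)).sub ((ha 0).mul (hb 2))
  · exact ((ha 0).mul (hb 1)).sub ((ha 1).mul (hb 0))

/-- second derivative relations -/
lemma rel1 (p : ℝ × ℝ) : ⟪Du (Du F) p, Du F p⟫ = (0 : ℝ) := by
  have h := Du_inner (contDiff_Du hI.smooth) (contDiff_Du hI.smooth) p
  simp only [hI.h11] at h
  rw [Du_const, real_inner_comm] at h
  linarith

lemma rel2 (p : ℝ × ℝ) : ⟪Dv (Du F) p, Du F p⟫ = (0 : ℝ) := by
  have h := Dv_inner (contDiff_Du hI.smooth) (contDiff_Du hI.smooth) p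
  simp only [hI.h11] at h
  rw [Dv_const, real_inner_comm] at h
  linarith

lemma rel3 (p : ℝ × ℝ) : ⟪Dv (Du F) p, Dv F p⟫ = φ p.1 * deriv φ p.1 := by
  have h := Du_inner (contDiff_Dv hI.smooth) (contDiff_Dv hI.smooth) p
  simp only [hI.h22] at h
  rw [Du_fst (h := fun u => φ u ^ 2) (hφ.pow 2), ← Dv_Du hI.smooth, real_inner_comm] at h
  have h2 : deriv (fun u => φ u ^ 2) p.1 = 2 * φ p.1 * deriv φ p.1 := by
    have := ((hφ.differentiable (by simp) p.1).hasDerivAt).pow 2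
    exact (show deriv (fun u => φ u ^ 2) p.1 = _ from this.deriv).trans (by norm_num)
  rw [h2] at h
  linarith

lemma rel4 (p : ℝ × ℝ) : ⟪Dv (Dv F) p, Dv F p⟫ = (0 : ℝ) := by
  have h := Dv_inner (contDiff_Dv hI.smooth) (contDiff_Dv hI.smooth) p
  simp only [hI.h22] at h
  rw [Dv_fst (h := fun u => φ u ^ 2) (hφ.pow 2), real_inner_comm] at h
  linarith

lemma rel5 (p : ℝ × ℝ) : ⟪Du (Du F) p, Dv F p⟫ = (0 : ℝ) := by
  have h := Du_inner (contDiff_Du hI.smooth) (contDiff_Dv hI.smooth) p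
  simp only [hI.h12] at h
  rw [Du_const, ← Dv_Du hI.smooth, real_inner_comm, rel2 hI hφ hpos p] at h
  linarith

lemma rel6 (p : ℝ × ℝ) : ⟪Dv (Dv F) p, Du F p⟫ = - (φ p.1 * deriv φ p.1) := by
  have h := Dv_inner (contDiff_Du hI.smooth) (contDiff_Dv hI.smooth) p
  simp only [hI.h12] at h
  rw [Dv_const, real_inner_comm, rel3 hI hφ hpos p] at h
  linarith

/-- Gauss equation -/
lemma gauss (p : ℝ × ℝ) :
    ⟪Du (Du F) p, Nor φ F p⟫ * ⟪Dv (Dv F) p, Nor φ F p⟫ - ⟪Dv (Du F) p, Nor φ F p⟫ ^ 2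
      = - (φ p.1 * deriv (deriv φ) p.1) := by
  have hA := contDiff_Du hI.smooth
  have hB := contDiff_Dv hI.smooth
  -- differentiate rel5 along v
  have e1 := Dv_inner (contDiff_Du hA) hB p
  simp only [rel5 hI hφ hpos] at e1
  rw [Dv_const, Dv_Du hA] at e1
  -- differentiate rel3 along u
  have e2 := Du_inner (contDiff_Dv hA) hB p
  simp only [rel3 hI hφ hpos] at e2
  have hφ' : ContDiff ℝ ∞ (deriv φ) := (contDiff_infty_iff_deriv.1 hφ).2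
  rw [Du_fst (h := fun u => φ u * deriv φ u) (hφ.mul hφ'), ← Dv_Du hI.smooth] at e2
  have h2 : deriv (fun u => φ u * deriv φ u) p.1
      = deriv φ p.1 * deriv φ p.1 + φ p.1 * deriv (deriv φ) p.1 := by
    have := ((hφ.differentiable (by simp) p.1).hasDerivAt).mul
      ((hφ'.differentiable (by simp) p.1).hasDerivAt)
    exact this.deriv
  rw [h2] at e2
  have q1 := pars hI hpos p (Du (Du F) p) (Dv (Dv F) p)
  have q2 := pars hI hpos p (Dv (Du F) p) (Dv (Du F) p)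
  rw [rel1 hI hφ hpos, rel5 hI hφ hpos] at q1
  rw [rel2 hI hφ hpos, rel3 hI hφ hpos] at q2
  have hne := (hpos p.1).ne'
  have q3 : φ p.1 * deriv φ p.1 * (φ p.1 * deriv φ p.1) / φ p.1 ^ 2
      = deriv φ p.1 * deriv φ p.1 := by field_simp
  rw [q3] at q2
  simp only [zero_mul, zero_div, zero_add] at q1 q2
  linear_combination -q1 + q2 + e2 - e1

lemma N1 (p : ℝ × ℝ) : ⟪Du (Nor φ F) p, Du F p⟫ = - ⟪Du (Du F) p, Nor φ F p⟫ := by
  have h := Du_inner (smooth_Nor hI hφ hpos) (contDiff_Du hI.smooth) p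
  simp only [Nor_a hI hpos] at h
  rw [Du_const, real_inner_comm (Du (Du F) p)] at h
  linarith

lemma N2 (p : ℝ × ℝ) : ⟪Du (Nor φ F) p, Dv F p⟫ = - ⟪Dv (Du F) p, Nor φ F p⟫ := by
  have h := Du_inner (smooth_Nor hI hφ hpos) (contDiff_Dv hI.smooth) p
  simp only [Nor_b hI hpos] at h
  rw [Du_const, ← Dv_Du hI.smooth, real_inner_comm (Dv (Du F) p)] at h
  linarith

lemma N3 (p : ℝ × ℝ) : ⟪Du (Nor φ F) p, Nor φ F p⟫ = (0 : ℝ) := by
  have h := Du_inner (smooth_Nor hI hφ hpos) (smooth_Nor hI hφ hpos) p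
  simp only [Nor_n hI hpos] at h
  rw [Du_const, real_inner_comm (Du (Nor φ F) p)] at h
  linarith

lemma N4 (p : ℝ × ℝ) : ⟪Dv (Nor φ F) p, Du F p⟫ = - ⟪Dv (Du F) p, Nor φ F p⟫ := by
  have h := Dv_inner (smooth_Nor hI hφ hpos) (contDiff_Du hI.smooth) p
  simp only [Nor_a hI hpos] at h
  rw [Dv_const, real_inner_comm (Dv (Du F) p)] at h
  linarith

lemma N5 (p : ℝ × ℝ) : ⟪Dv (Nor φ F) p, Dv F p⟫ = - ⟪Dv (Dv F) p, Nor φ F p⟫ := by
  have h := Dv_inner (smooth_Nor hI hφ hpos) (contDiff_Dv hI.smooth) p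
  simp only [Nor_b hI hpos] at h
  rw [Dv_const, real_inner_comm (Dv (Dv F) p)] at h
  linarith

lemma N6 (p : ℝ × ℝ) : ⟪Dv (Nor φ F) p, Nor φ F p⟫ = (0 : ℝ) := by
  have h := Dv_inner (smooth_Nor hI hφ hpos) (smooth_Nor hI hφ hpos) p
  simp only [Nor_n hI hpos] at h
  rw [Dv_const, real_inner_comm (Dv (Nor φ F) p)] at h
  linarith

lemma gram (p : ℝ × ℝ) :
    ⟪Du (Nor φ F) p, Du (Nor φ F) p⟫ * ⟪Dv (Nor φ F) p, Dv (Nor φ F) p⟫
      - ⟪Du (Nor φ F) p, Dv (Nor φ F) p⟫ ^ 2 = (deriv (deriv φ) p.1) ^ 2 := by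
  have hne := (hpos p.1).ne'
  rw [pars hI hpos p (Du (Nor φ F) p) (Du (Nor φ F) p),
    pars hI hpos p (Dv (Nor φ F) p) (Dv (Nor φ F) p),
    pars hI hpos p (Du (Nor φ F) p) (Dv (Nor φ F) p),
    N1 hI hφ hpos, N2 hI hφ hpos, N3 hI hφ hpos, N4 hI hφ hpos, N5 hI hφ hpos, N6 hI hφ hpos]
  have hg := gauss hI hφ hpos p
  set L := ⟪Du (Du F) p, Nor φ F p⟫
  set M := ⟪Dv (Du F) p, Nor φ F p⟫
  set K := ⟪Dv (Dv F) p, Nor φ F p⟫
  have e : (-L * -L + -M * -M / φ p.1 ^ 2 + 0 * 0) * (-M * -M + -K * -K / φ p.1 ^ 2 + 0 * 0)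
      - (-L * -M + -M * -K / φ p.1 ^ 2 + 0 * 0) ^ 2 = (L * K - M ^ 2) ^ 2 / φ p.1 ^ 2 := by
    field_simp
    ring
  rw [e, hg]
  field_simp

end

end Pool.Agent.W971.Tight
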