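import Pool.Agent.W971.TightB

open MeasureTheory Set Filter Topology
open scoped ContDiff RealInnerProductSpace

set_option linter.unusedSectionVars false

namespace Pool.Agent.W971.Tight

variable {φ : ℝ → ℝ} {F : ℝ × ℝ → E3}

lemma second_le {g : ℝ → ℝ} {x : ℝ} (hg : ContinuousAt g x) (hm : IsLocalMax g x) :
    deriv (deriv g) x ≤ 0 := by
  by_contra h
  rw [not_le] at h
  have h0 : deriv g x = 0 := hm.deriv_eq_zero
  have hmin := isLocalMin_of_deriv_deriv_pos h h0 hg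
  have hc : g =ᶠ[𝓝 x] fun _ => g x := by
    filter_upwards [hm, hmin] with y h1 h2
    exact le_antisymm h1 h2
  have h1 : deriv g =ᶠ[𝓝 x] deriv (fun _ => g x) := hc.deriv
  have h2 : deriv g =ᶠ[𝓝 x] fun _ => (0:ℝ) := by
    filter_upwards [h1] with y hy
    rw [hy]; simp
  have h3 := h2.deriv_eq
  simp only [deriv_const'] at h3
  linarith

section
variable (hI : Imm φ F) (hφ : ContDiff ℝ ∞ φ) (hpos : ∀ u, 0 < φ u)
include hI

lemma Du_inner_const (w : E3) (p : ℝ × ℝ) :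
    Du (fun q => ⟪F q, w⟫) p = ⟪Du F p, w⟫ := by
  have := Du_inner hI.smooth (contDiff_const (c := w)) p
  rw [this]
  simp [Du]

lemma Dv_inner_const (w : E3) (p : ℝ × ℝ) :
    Dv (fun q => ⟪F q, w⟫) p = ⟪Dv F p, w⟫ := by
  have := Dv_inner hI.smooth (contDiff_const (c := w)) p
  rw [this]
  simp [Dv]

lemma exists_max (w : E3) : ∃ p : ℝ × ℝ, p.1 ∈ Ico (0:ℝ) 1 ∧ p.2 ∈ Ico (0:ℝ) 1 ∧
    ∀ q, ⟪F q, w⟫ ≤ ⟪F p, w⟫ := by
  have hc : Continuous (fun q => ⟪F q, w⟫) := hI.smooth.continuous.inner continuous_const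
  have hfr : ∀ q : ℝ × ℝ, F (Int.fract q.1, Int.fract q.2) = F q := by
    intro q
    have := hI.per q (-⌊q.1⌋) (-⌊q.2⌋)
    rw [← this]
    congr 1
    push_cast
    simp only [Int.fract, sub_eq_add_neg]
  obtain ⟨p, -, hp⟩ := (isCompact_Icc (a := ((0:ℝ), (0:ℝ))) (b := ((1:ℝ), (1:ℝ)))).exists_isMaxOn
    (nonempty_Icc.2 (by simp [Prod.le_def])) hc.continuousOn
  refine ⟨(Int.fract p.1, Int.fract p.2), ⟨Int.fract_nonneg _, Int.fract_lt_one _⟩,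
    ⟨Int.fract_nonneg _, Int.fract_lt_one _⟩, fun q => ?_⟩
  rw [hfr, ← hfr q]
  apply hp
  refine ⟨?_, ?_⟩
  · exact Prod.le_def.2 ⟨Int.fract_nonneg _, Int.fract_nonneg _⟩
  · exact Prod.le_def.2 ⟨(Int.fract_lt_one _).le, (Int.fract_lt_one _).le⟩

lemma crit (w : E3) (p : ℝ × ℝ) (h : ∀ q, ⟪F q, w⟫ ≤ ⟪F p, w⟫) :
    ⟪Du F p, w⟫ = (0:ℝ) ∧ ⟪Dv F p, w⟫ = (0:ℝ) := by
  have hm : IsLocalMax (fun q => ⟪F q, w⟫) p := Eventually.of_forall h
  have := hm.fderiv_eq_zero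
  rw [← Du_inner_const hI, ← Dv_inner_const hI]
  unfold Du Dv
  rw [this]; simp

lemma crit2 (w : E3) (p : ℝ × ℝ) (h : ∀ q, ⟪F q, w⟫ ≤ ⟪F p, w⟫) (s t : ℝ) :
    s * s * ⟪Du (Du F) p, w⟫ + 2 * (s * t) * ⟪Dv (Du F) p, w⟫ + t * t * ⟪Dv (Dv F) p, w⟫ ≤ 0 := by
  set ℓ : ℝ → ℝ × ℝ := fun τ => p + τ • (s, t) with hℓ
  have hℓd : ∀ τ, HasDerivAt ℓ (s, t) τ := by
    intro τ
    have := ((hasDerivAt_id τ).smul_const ((s, t) : ℝ × ℝ)).const_add p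
    rw [one_smul] at this
    exact this
  have hder : ∀ {G : ℝ × ℝ → E3} (_ : ContDiff ℝ ∞ G) (τ : ℝ),
      HasDerivAt (fun τ => ⟪G (ℓ τ), w⟫) (⟪s • Du G (ℓ τ) + t • Dv G (ℓ τ), w⟫) τ := by
    intro G hG τ
    have h1 : HasDerivAt (fun τ => G (ℓ τ)) (fderiv ℝ G (ℓ τ) (s, t)) τ :=
      ((hG.differentiable (by simp) (ℓ τ)).hasFDerivAt).comp_hasDerivAt τ (hℓd τ)
    rw [fderiv_pair] at h1
    have := h1.inner ℝ (hasDerivAt_const τ w)
    simpa using this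
  have hA := contDiff_Du hI.smooth
  have hB := contDiff_Dv hI.smooth
  have hg' : deriv (fun τ => ⟪F (ℓ τ), w⟫) = fun τ => s * ⟪Du F (ℓ τ), w⟫ + t * ⟪Dv F (ℓ τ), w⟫ := by
    funext τ
    rw [(hder hI.smooth τ).deriv, inner_add_left, inner_smul_left, inner_smul_left]
    rfl
  have hm : IsLocalMax (fun τ => ⟪F (ℓ τ), w⟫) 0 := by
    apply Eventually.of_forall
    intro τ
    have : ℓ 0 = p := by simp [hℓ]
    show ⟪F (ℓ τ), w⟫ ≤ ⟪F (ℓ 0), w⟫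
    rw [this]; exact h _
  have h2 := second_le (hder hI.smooth 0).continuousAt hm
  rw [hg'] at h2
  have h3 := ((hder hA 0).const_mul s).add ((hder hB 0).const_mul t)
  have h4 : deriv (fun τ => s * ⟪Du F (ℓ τ), w⟫ + t * ⟪Dv F (ℓ τ), w⟫) 0 = _ := h3.deriv
  rw [h4] at h2
  have hℓ0 : ℓ 0 = p := by simp [hℓ]
  rw [hℓ0, ← Dv_Du hI.smooth] at h2
  simp only [inner_add_left, inner_smul_left, conj_trivial] at h2
  linarith

include hφ hpos

lemma unit_eq (w : E3) (hw : ⟪w, w⟫ = (1:ℝ)) (p : ℝ × ℝ) (h1 : ⟪Du F p, w⟫ = (0:ℝ))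
    (h2 : ⟪Dv F p, w⟫ = (0:ℝ)) : w = Nor φ F p ∨ w = - Nor φ F p := by
  have hp := pars hI hpos p w w
  rw [real_inner_comm] at h1 h2
  rw [hw, h1, h2] at hp
  have hn := Nor_n hI hpos p
  have h3 : ⟪w, Nor φ F p⟫ = (1:ℝ) ∨ ⟪w, Nor φ F p⟫ = (-1:ℝ) := by
    have : (⟪w, Nor φ F p⟫ - 1) * (⟪w, Nor φ F p⟫ + 1) = (0:ℝ) := by
      simp only [zero_mul, zero_div, zero_add] at hp
      linarith
    rcases mul_eq_zero.1 this with h | h
    · left; linarith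
    · right; linarith
  rcases h3 with h3 | h3
  · left
    rw [← sub_eq_zero, ← inner_self_eq_zero (𝕜 := ℝ), inner_sub_left, inner_sub_right,
      inner_sub_right, hw, h3, real_inner_comm, h3, hn]
    ring
  · right
    rw [← sub_eq_zero, ← inner_self_eq_zero (𝕜 := ℝ), sub_neg_eq_add, inner_add_left,
      inner_add_right, inner_add_right, hw, h3, real_inner_comm, h3, hn]
    ring

lemma curv_nonneg (p : ℝ × ℝ) (w : E3) (hw : w = Nor φ F p ∨ w = - Nor φ F p)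
    (h : ∀ q, ⟪F q, w⟫ ≤ ⟪F p, w⟫) : deriv (deriv φ) p.1 ≤ 0 := by
  have hq := crit2 hI w p h
  have hg := gauss hI hφ hpos p
  have hsq : ⟪Du (Du F) p, w⟫ * ⟪Dv (Dv F) p, w⟫ - ⟪Dv (Du F) p, w⟫ ^ 2
      = - (φ p.1 * deriv (deriv φ) p.1) := by
    rw [← hg]
    rcases hw with rfl | rfl
    · rfl
    · simp only [inner_neg_right]; ring
  have hd := discrim_le_zero (a := -⟪Du (Du F) p, w⟫) (b := -2 * ⟪Dv (Du F) p, w⟫)
    (c := -⟪Dv (Dv F) p, w⟫) (by intro s; have := hq s 1; linarith)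
  unfold discrim at hd
  have hp := hpos p.1
  have : 0 ≤ - (φ p.1 * deriv (deriv φ) p.1) := by rw [← hsq]; linarith
  by_contra hc
  rw [not_le] at hc
  have := mul_pos hp hc
  linarith

end

/-! ### the two extremal sets -/

def Mp (φ : ℝ → ℝ) (F : ℝ × ℝ → E3) : Set (ℝ × ℝ) :=
  {p | ∀ q, ⟪F q, Nor φ F p⟫ ≤ ⟪F p, Nor φ F p⟫}

def Mm (φ : ℝ → ℝ) (F : ℝ × ℝ → E3) : Set (ℝ × ℝ) :=
  {p | ∀ q, ⟪F p, Nor φ F p⟫ ≤ ⟪F q, Nor φ F p⟫}

section
variable (hI : Imm φ F) (hφ : ContDiff ℝ ∞ φ) (hpos : ∀ u, 0 < φ u)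
include hI hφ hpos

lemma closed_Mp : IsClosed (Mp φ F) := by
  have hN := (smooth_Nor hI hφ hpos).continuous
  have hF := hI.smooth.continuous
  have : Mp φ F = ⋂ q, {p | ⟪F q, Nor φ F p⟫ ≤ ⟪F p, Nor φ F p⟫} := by
    ext p; simp [Mp]
  rw [this]
  exact isClosed_iInter fun q => isClosed_le (continuous_const.inner hN) (hF.inner hN)

lemma closed_Mm : IsClosed (Mm φ F) := by
  have hN := (smooth_Nor hI hφ hpos).continuous
  have hF := hI.smooth.continuous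
  have : Mm φ F = ⋂ q, {p | ⟪F p, Nor φ F p⟫ ≤ ⟪F q, Nor φ F p⟫} := by
    ext p; simp [Mm]
  rw [this]
  exact isClosed_iInter fun q => isClosed_le (hF.inner hN) (continuous_const.inner hN)

lemma curv_Mp (p : ℝ × ℝ) (hp : p ∈ Mp φ F) : deriv (deriv φ) p.1 ≤ 0 :=
  curv_nonneg hI hφ hpos p _ (Or.inl rfl) hp

lemma curv_Mm (p : ℝ × ℝ) (hp : p ∈ Mm φ F) : deriv (deriv φ) p.1 ≤ 0 := by
  apply curv_nonneg hI hφ hpos p _ (Or.inr rfl)
  intro q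
  rw [inner_neg_right, inner_neg_right]
  have := hp q
  linarith

lemma cover (w : E3) (hw : ⟪w, w⟫ = (1:ℝ)) : ∃ p : ℝ × ℝ, p.1 ∈ Ico (0:ℝ) 1 ∧ p.2 ∈ Ico (0:ℝ) 1 ∧
    ((p ∈ Mp φ F ∧ w = Nor φ F p) ∨ (p ∈ Mm φ F ∧ w = - Nor φ F p)) := by
  obtain ⟨p, h1, h2, hp⟩ := exists_max hI w
  refine ⟨p, h1, h2, ?_⟩
  obtain ⟨c1, c2⟩ := crit hI w p hp
  rcases unit_eq hI hφ hpos w hw p c1 c2 with h | h
  · left
    refine ⟨?_, h⟩
    intro q
    rw [← h]; exact hp q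
  · right
    refine ⟨?_, h⟩
    intro q
    have := hp q
    rw [h, inner_neg_right, inner_neg_right] at this
    linarith

lemma disj : Disjoint (Mp φ F) (Mm φ F) := by
  rw [Set.disjoint_left]
  intro p hp hm
  have hconst : ∀ q, ⟪F q, Nor φ F p⟫ = ⟪F p, Nor φ F p⟫ := fun q => le_antisymm (hp q) (hm q)
  have hn := Nor_n hI hpos p
  -- every point is a maximum in direction `N p`
  have hall : ∀ q, Nor φ F p = Nor φ F q ∨ Nor φ F p = - Nor φ F q := by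
    intro q
    obtain ⟨c1, c2⟩ := crit hI (Nor φ F p) q (fun r => by rw [hconst r, hconst q])
    exact unit_eq hI hφ hpos _ hn q c1 c2
  obtain ⟨q, -, -, hq⟩ := cover hI hφ hpos (Du F p) (hI.h11 p)
  have ha := Nor_a hI hpos p
  have h1 : Du F p = Nor φ F q ∨ Du F p = - Nor φ F q := by
    rcases hq with ⟨-, h⟩ | ⟨-, h⟩
    · exact Or.inl h
    · exact Or.inr h
  have h2 : Du F p = Nor φ F p ∨ Du F p = - Nor φ F p := by
    rcases h1 with h1 | h1 <;> rcases hall q with h3 | h3 <;> rw [h1, h3] <;> simp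
  rcases h2 with h2 | h2
  · rw [h2, hn] at ha; exact one_ne_zero ha
  · rw [h2, inner_neg_right, hn] at ha; norm_num at ha

end

end Pool.Agent.W971.Tight
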