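import Pool.Agent.W971.TightC

open MeasureTheory Set Filter Topology
open scoped ContDiff RealInnerProductSpace

set_option linter.unusedSectionVars false

namespace Pool.Agent.W971.Tight

variable {φ : ℝ → ℝ} {F : ℝ × ℝ → E3}

noncomputable abbrev ee (i : Fin 3) : E3 := EuclideanSpace.single i (1:ℝ)

lemma det_sq (f : E3 →L[ℝ] E3) (h02 : ⟪f (ee 0), f (ee 2)⟫ = (0:ℝ))
    (h12 : ⟪f (ee 1), f (ee 2)⟫ = (0:ℝ)) (h22 : ⟪f (ee 2), f (ee 2)⟫ = (1:ℝ)) :
    f.det ^ 2 = ⟪f (ee 0), f (ee 0)⟫ * ⟪f (ee 1), f (ee 1)⟫ - ⟪f (ee 0), f (ee 1)⟫ ^ 2 := by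
  have hdet : f.det = (f (ee 0) 0) * (f (ee 1) 1) * (f (ee 2) 2)
      - (f (ee 0) 0) * (f (ee 2) 1) * (f (ee 1) 2)
      - (f (ee 1) 0) * (f (ee 0) 1) * (f (ee 2) 2)
      + (f (ee 1) 0) * (f (ee 2) 1) * (f (ee 0) 2)
      + (f (ee 2) 0) * (f (ee 0) 1) * (f (ee 1) 2)
      - (f (ee 2) 0) * (f (ee 1) 1) * (f (ee 0) 2) := by
    unfold ContinuousLinearMap.det
    rw [← LinearMap.det_toMatrix (EuclideanSpace.basisFun (Fin 3) ℝ).toBasis, Matrix.det_fin_three]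
    simp only [LinearMap.toMatrix_apply, OrthonormalBasis.coe_toBasis,
      OrthonormalBasis.coe_toBasis_repr_apply, EuclideanSpace.basisFun_repr,
      EuclideanSpace.basisFun_apply, ContinuousLinearMap.coe_coe]
  have hG : f.det ^ 2 = ⟪f (ee 0), f (ee 0)⟫ * (⟪f (ee 1), f (ee 1)⟫ * ⟪f (ee 2), f (ee 2)⟫
        - ⟪f (ee 1), f (ee 2)⟫ ^ 2)
      - ⟪f (ee 0), f (ee 1)⟫ * (⟪f (ee 0), f (ee 1)⟫ * ⟪f (ee 2), f (ee 2)⟫
        - ⟪f (ee 1), f (ee 2)⟫ * ⟪f (ee 0), f (ee 2)⟫)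
      + ⟪f (ee 0), f (ee 2)⟫ * (⟪f (ee 0), f (ee 1)⟫ * ⟪f (ee 1), f (ee 2)⟫
        - ⟪f (ee 1), f (ee 1)⟫ * ⟪f (ee 0), f (ee 2)⟫) := by
    rw [hdet]
    simp only [inner3]
    ring
  rw [hG, h02, h12, h22]; ring

noncomputable def pr : E3 →L[ℝ] ℝ × ℝ :=
  (EuclideanSpace.proj (0 : Fin 3) : E3 →L[ℝ] ℝ).prod (EuclideanSpace.proj (1 : Fin 3) : E3 →L[ℝ] ℝ)

lemma pr_apply (x : E3) : pr x = (x 0, x 1) := rfl

noncomputable def Phi (φ : ℝ → ℝ) (F : ℝ × ℝ → E3) (x : E3) : E3 := x 2 • Nor φ F (pr x)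

noncomputable def Phi' (φ : ℝ → ℝ) (F : ℝ × ℝ → E3) (x : E3) : E3 →L[ℝ] E3 :=
  x 2 • ((fderiv ℝ (Nor φ F) (pr x)).comp pr) +
    (EuclideanSpace.proj (2 : Fin 3) : E3 →L[ℝ] ℝ).smulRight (Nor φ F (pr x))

section
variable (hI : Imm φ F) (hφ : ContDiff ℝ ∞ φ) (hpos : ∀ u, 0 < φ u)
include hI hφ hpos

lemma hasFDerivAt_Phi (x : E3) : HasFDerivAt (Phi φ F) (Phi' φ F x) x := by
  have h1 : HasFDerivAt (fun x : E3 => x 2) (EuclideanSpace.proj (2 : Fin 3) : E3 →L[ℝ] ℝ) x :=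
    (EuclideanSpace.proj (2 : Fin 3) : E3 →L[ℝ] ℝ).hasFDerivAt
  have h2 : HasFDerivAt (fun x : E3 => Nor φ F (pr x)) ((fderiv ℝ (Nor φ F) (pr x)).comp pr) x :=
    ((smooth_Nor hI hφ hpos).differentiable (by simp) (pr x)).hasFDerivAt.comp x pr.hasFDerivAt
  exact h1.smul h2

lemma det_Phi' (x : E3) : |(Phi' φ F x).det| = x 2 ^ 2 * |deriv (deriv φ) (x 0)| := by
  have e0 : Phi' φ F x (ee 0) = x 2 • Du (Nor φ F) (pr x) := by
    simp [Phi', ee, pr, Du]
  have e1 : Phi' φ F x (ee 1) = x 2 • Dv (Nor φ F) (pr x) := by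
    simp [Phi', ee, pr, Dv]
  have e2 : Phi' φ F x (ee 2) = Nor φ F (pr x) := by
    simp [Phi', ee, pr]
    right
    exact map_zero (fderiv ℝ (Nor φ F) _)
  have hg := gram hI hφ hpos (pr x)
  have h := det_sq (Phi' φ F x) (by rw [e0, e2, inner_smul_left, N3 hI hφ hpos, mul_zero])
    (by rw [e1, e2, inner_smul_left, N6 hI hφ hpos, mul_zero]) (by rw [e2, Nor_n hI hpos])
  rw [e0, e1] at h
  simp only [inner_smul_left, inner_smul_right, conj_trivial] at h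
  have h2 : (Phi' φ F x).det ^ 2 = (x 2 ^ 2 * |deriv (deriv φ) (x 0)|) ^ 2 := by
    rw [h, mul_pow (x 2 ^ 2) |deriv (deriv φ) (x 0)| 2, sq_abs]
    have : (pr x).1 = x 0 := rfl
    rw [this] at hg
    rw [← hg]; ring
  rw [← abs_of_nonneg (show 0 ≤ x 2 ^ 2 * |deriv (deriv φ) (x 0)| by positivity)]
  exact (sq_eq_sq_iff_abs_eq_abs _ _).1 h2

end

def Box : Set E3 := {x | x 0 ∈ Ico (0:ℝ) 1 ∧ x 1 ∈ Ico (0:ℝ) 1 ∧ x 2 ∈ Ioc (0:ℝ) 1}

lemma meas_coord (i : Fin 3) : Measurable (fun x : E3 => x i) :=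
  (EuclideanSpace.proj i : E3 →L[ℝ] ℝ).continuous.measurable

lemma measurableSet_Box : MeasurableSet Box := by
  unfold Box
  exact ((meas_coord 0) measurableSet_Ico).inter (((meas_coord 1) measurableSet_Ico).inter
    ((meas_coord 2) measurableSet_Ioc))

/-- the integral over the box -/
lemma box_integral (ψ : ℝ → ℝ) (hψ : Continuous ψ) (h0 : ∀ u, 0 ≤ ψ u) :
    ∫⁻ x in Box, ENNReal.ofReal (x 2 ^ 2 * ψ (x 0)) = ENNReal.ofReal ((∫ u in (0:ℝ)..1, ψ u) / 3) := by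
  let f : Fin 3 → ℝ → ℝ := ![(Ico (0:ℝ) 1).indicator ψ, (Ico (0:ℝ) 1).indicator 1,
    (Ioc (0:ℝ) 1).indicator (fun t => t ^ 2)]
  have hf0 : Integrable (f 0) := by
    show Integrable ((Ico (0:ℝ) 1).indicator ψ)
    rw [integrable_indicator_iff measurableSet_Ico]
    exact (hψ.integrableOn_Icc (a := 0) (b := 1)).mono_set Ico_subset_Icc_self
  have hf1 : Integrable (f 1) := by
    show Integrable ((Ico (0:ℝ) 1).indicator (1 : ℝ → ℝ))
    rw [integrable_indicator_iff measurableSet_Ico]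
    exact (continuous_const.integrableOn_Icc (a := (0:ℝ)) (b := 1)).mono_set Ico_subset_Icc_self
  have hf2 : Integrable (f 2) := by
    show Integrable ((Ioc (0:ℝ) 1).indicator (fun t => t ^ 2))
    rw [integrable_indicator_iff measurableSet_Ioc]
    exact ((continuous_pow 2).integrableOn_Icc (a := (0:ℝ)) (b := 1)).mono_set Ioc_subset_Icc_self
  have hint : Integrable (fun y : Fin 3 → ℝ => ∏ i, f i (y i)) := by
    apply Integrable.fintype_prod
    intro i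
    fin_cases i
    · exact hf0
    · exact hf1
    · exact hf2
  have hnn : ∀ y : Fin 3 → ℝ, 0 ≤ ∏ i, f i (y i) := by
    intro y
    apply Finset.prod_nonneg
    intro i _
    fin_cases i
    · exact indicator_nonneg (fun _ _ => h0 _) _
    · exact indicator_nonneg (fun _ _ => zero_le_one) _
    · exact indicator_nonneg (fun t _ => sq_nonneg t) _
  have hprod : ∫ y : Fin 3 → ℝ, ∏ i, f i (y i) = (∫ u in (0:ℝ)..1, ψ u) / 3 := by
    rw [integral_fintype_prod_volume_eq_prod, Fin.prod_univ_three]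
    have i0 : ∫ x, f 0 x = ∫ u in (0:ℝ)..1, ψ u := by
      show ∫ x, (Ico (0:ℝ) 1).indicator ψ x = _
      rw [integral_indicator measurableSet_Ico, integral_Ico_eq_integral_Ioc,
        intervalIntegral.integral_of_le zero_le_one]
    have i1 : ∫ x, f 1 x = 1 := by
      show ∫ x, (Ico (0:ℝ) 1).indicator (1 : ℝ → ℝ) x = _
      rw [integral_indicator measurableSet_Ico]
      simp
    have i2 : ∫ x, f 2 x = 1 / 3 := by
      show ∫ x, (Ioc (0:ℝ) 1).indicator (fun t => t ^ 2) x = _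
      rw [integral_indicator measurableSet_Ioc, ← intervalIntegral.integral_of_le zero_le_one,
        integral_pow]
      norm_num
    rw [i0, i1, i2]; ring
  rw [← hprod, ofReal_integral_eq_lintegral_ofReal hint (Eventually.of_forall hnn),
    ← (PiLp.volume_preserving_ofLp (Fin 3)).lintegral_comp_emb
      (MeasurableEquiv.toLp 2 (Fin 3 → ℝ)).symm.measurableEmbedding,
    ← lintegral_indicator measurableSet_Box]
  apply lintegral_congr
  intro x
  rw [Fin.prod_univ_three]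
  by_cases hx : x ∈ Box
  · rw [indicator_of_mem hx]
    congr 1
    show _ = (Ico (0:ℝ) 1).indicator ψ (x 0) * (Ico (0:ℝ) 1).indicator (1 : ℝ → ℝ) (x 1)
      * (Ioc (0:ℝ) 1).indicator (fun t => t ^ 2) (x 2)
    rw [indicator_of_mem hx.1, indicator_of_mem hx.2.1, indicator_of_mem hx.2.2]
    simp only [Pi.one_apply]
    ring
  · rw [indicator_of_notMem hx]
    symm
    rw [ENNReal.ofReal_eq_zero]
    apply le_of_eq
    show (Ico (0:ℝ) 1).indicator ψ (x 0) * (Ico (0:ℝ) 1).indicator (1 : ℝ → ℝ) (x 1)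
      * (Ioc (0:ℝ) 1).indicator (fun t => t ^ 2) (x 2) = 0
    by_contra hne
    apply hx
    refine ⟨?_, ?_, ?_⟩
    · by_contra h; rw [indicator_of_notMem h] at hne; simp at hne
    · by_contra h; rw [indicator_of_notMem h] at hne; simp at hne
    · by_contra h; rw [indicator_of_notMem h] at hne; simp at hne

section
variable (hI : Imm φ F) (hφ : ContDiff ℝ ∞ φ) (hpos : ∀ u, 0 < φ u)
include hI hφ hpos

lemma ball_cover : Metric.ball (0 : E3) 1 ⊆ Phi φ F '' (Box ∩ pr ⁻¹' Mp φ F) ∪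
    (fun x => - Phi φ F x) '' (Box ∩ pr ⁻¹' Mm φ F) ∪ {0} := by
  intro y hy
  by_cases h0 : y = 0
  · right; exact h0
  left
  have hn : 0 < ‖y‖ := norm_pos_iff.2 h0
  have hlt : ‖y‖ < 1 := by simpa using hy
  set w : E3 := ‖y‖⁻¹ • y with hw
  have hwn : ⟪w, w⟫ = (1:ℝ) := by
    rw [real_inner_self_eq_norm_sq, hw, norm_smul, norm_inv, norm_norm, inv_mul_cancel₀ hn.ne']
    norm_num
  have hyw : y = ‖y‖ • w := by rw [hw, smul_smul, mul_inv_cancel₀ hn.ne', one_smul]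
  obtain ⟨p, hp1, hp2, hp⟩ := cover hI hφ hpos w hwn
  let x : E3 := WithLp.toLp 2 ![p.1, p.2, ‖y‖]
  have hx0 : x 0 = p.1 := rfl
  have hx1 : x 1 = p.2 := rfl
  have hx2 : x 2 = ‖y‖ := rfl
  have hprx : pr x = p := by rw [pr_apply, hx0, hx1]
  have hxB : x ∈ Box := ⟨by rw [hx0]; exact hp1, by rw [hx1]; exact hp2,
    by rw [hx2]; exact ⟨hn, hlt.le⟩⟩
  rcases hp with ⟨hp, hwp⟩ | ⟨hp, hwp⟩
  · left
    refine ⟨x, ⟨hxB, by rw [mem_preimage, hprx]; exact hp⟩, ?_⟩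
    rw [Phi, hx2, hprx, ← hwp]; exact hyw.symm
  · right
    refine ⟨x, ⟨hxB, by rw [mem_preimage, hprx]; exact hp⟩, ?_⟩
    show - Phi φ F x = y
    rw [Phi, hx2, hprx, ← smul_neg, ← hwp]; exact hyw.symm

/-- the total positive curvature of an immersed surface of revolution metric is at least `4 π` -/
theorem four_pi_le : 4 * Real.pi ≤ ∫ u in (0:ℝ)..1, max (-(deriv (deriv φ) u)) 0 := by
  set ψ : ℝ → ℝ := fun u => max (-(deriv (deriv φ) u)) 0 with hψ
  have hφ1 : ContDiff ℝ ∞ (deriv φ) := (contDiff_infty_iff_deriv.1 hφ).2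
  have hφ2 : ContDiff ℝ ∞ (deriv (deriv φ)) := (contDiff_infty_iff_deriv.1 hφ1).2
  have hψc : Continuous ψ := (hφ2.continuous.neg).max continuous_const
  have hψ0 : ∀ u, 0 ≤ ψ u := fun u => le_max_right _ _
  have hI0 : 0 ≤ ∫ u in (0:ℝ)..1, ψ u :=
    intervalIntegral.integral_nonneg zero_le_one (fun u _ => hψ0 u)
  have mp : MeasurableSet (Box ∩ pr ⁻¹' Mp φ F) :=
    measurableSet_Box.inter ((closed_Mp hI hφ hpos).preimage pr.continuous).measurableSet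
  have mm : MeasurableSet (Box ∩ pr ⁻¹' Mm φ F) :=
    measurableSet_Box.inter ((closed_Mm hI hφ hpos).preimage pr.continuous).measurableSet
  have hd : Disjoint (Box ∩ pr ⁻¹' Mp φ F) (Box ∩ pr ⁻¹' Mm φ F) :=
    ((disj hI hφ hpos).preimage pr).mono inter_subset_right inter_subset_right
  have v1 : volume (Phi φ F '' (Box ∩ pr ⁻¹' Mp φ F)) ≤
      ∫⁻ x in Box ∩ pr ⁻¹' Mp φ F, ENNReal.ofReal (x 2 ^ 2 * ψ (x 0)) := by
    refine (addHaar_image_le_lintegral_abs_det_fderiv volume mp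
      (fun x _ => (hasFDerivAt_Phi hI hφ hpos x).hasFDerivWithinAt)).trans (le_of_eq ?_)
    apply setLIntegral_congr_fun mp
    intro x hx
    have hc := curv_Mp hI hφ hpos (pr x) hx.2
    have h1 : |deriv (deriv φ) (x 0)| = ψ (x 0) := by
      have hc' : deriv (deriv φ) (x 0) ≤ 0 := hc
      rw [abs_of_nonpos hc', hψ]
      exact (max_eq_left (by linarith)).symm
    simp only
    rw [det_Phi' hI hφ hpos, h1]
  have v2 : volume ((fun x => - Phi φ F x) '' (Box ∩ pr ⁻¹' Mm φ F)) ≤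
      ∫⁻ x in Box ∩ pr ⁻¹' Mm φ F, ENNReal.ofReal (x 2 ^ 2 * ψ (x 0)) := by
    have himg : (fun x => - Phi φ F x) '' (Box ∩ pr ⁻¹' Mm φ F)
        = - (Phi φ F '' (Box ∩ pr ⁻¹' Mm φ F)) := by
      rw [← Set.image_neg_eq_neg, ← Set.image_comp]; rfl
    rw [himg, Measure.measure_neg]
    refine (addHaar_image_le_lintegral_abs_det_fderiv volume mm
      (fun x _ => (hasFDerivAt_Phi hI hφ hpos x).hasFDerivWithinAt)).trans (le_of_eq ?_)
    apply setLIntegral_congr_fun mm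
    intro x hx
    have hc := curv_Mm hI hφ hpos (pr x) hx.2
    have h1 : |deriv (deriv φ) (x 0)| = ψ (x 0) := by
      have hc' : deriv (deriv φ) (x 0) ≤ 0 := hc
      rw [abs_of_nonpos hc', hψ]
      exact (max_eq_left (by linarith)).symm
    simp only
    rw [det_Phi' hI hφ hpos, h1]
  have v3 : volume (Metric.ball (0 : E3) 1) ≤ ENNReal.ofReal ((∫ u in (0:ℝ)..1, ψ u) / 3) := by
    calc volume (Metric.ball (0 : E3) 1)
        ≤ volume (Phi φ F '' (Box ∩ pr ⁻¹' Mp φ F) ∪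
          (fun x => - Phi φ F x) '' (Box ∩ pr ⁻¹' Mm φ F) ∪ {0}) :=
          measure_mono (ball_cover hI hφ hpos)
      _ ≤ volume (Phi φ F '' (Box ∩ pr ⁻¹' Mp φ F)) +
          volume ((fun x => - Phi φ F x) '' (Box ∩ pr ⁻¹' Mm φ F)) + volume {(0:E3)} :=
          (measure_union_le _ _).trans (add_le_add_left (measure_union_le _ _) _)
      _ ≤ (∫⁻ x in Box ∩ pr ⁻¹' Mp φ F, ENNReal.ofReal (x 2 ^ 2 * ψ (x 0))) +
          (∫⁻ x in Box ∩ pr ⁻¹' Mm φ F, ENNReal.ofReal (x 2 ^ 2 * ψ (x 0))) + 0 := by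
          gcongr
          simp
      _ = ∫⁻ x in (Box ∩ pr ⁻¹' Mp φ F) ∪ (Box ∩ pr ⁻¹' Mm φ F),
            ENNReal.ofReal (x 2 ^ 2 * ψ (x 0)) := by
          rw [add_zero, lintegral_union mm hd]
      _ ≤ ∫⁻ x in Box, ENNReal.ofReal (x 2 ^ 2 * ψ (x 0)) :=
          lintegral_mono_set (union_subset inter_subset_left inter_subset_left)
      _ = _ := box_integral ψ hψc hψ0
  rw [EuclideanSpace.volume_ball_fin_three] at v3
  simp only [ENNReal.ofReal_one, one_pow, one_mul] at v3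
  rw [ENNReal.ofReal_le_ofReal_iff (by positivity)] at v3
  linarith

end

end Pool.Agent.W971.Tight
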